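import Pool.Agent.Q185.NP.Stm

/-!
# Jobs POW, BR, EX of project NP (row MP_35c333_an)

Proofs of the statements `S_POW`, `S_BR` and `S_EX` (from `S_LC`, `S_BR`) of
`Pool.Agent.Q185.NP.Stm`.
-/

set_option autoImplicit false
set_option linter.unusedSectionVars false

namespace Pool.Agent.Q247.NP

open Pool.Agent.Q185.NP Q70.Nil

theorem L_anti {G : Type} [Group G] {i j : ℕ} (h : i ≤ j) : L G j ≤ L G i := by
  induction h with
  | refl => exact le_rfl
  | step _ ih => exact (L_succ_le _).trans ih

theorem pn_one {G : Type} [Group G] {d : ℕ} :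
    ∀ r k : ℕ, PN r k (fun _ : Ix d => (1 : G)) := by
  intro r
  induction r with
  | zero => intro k a; exact one_mem _
  | succ r ih =>
    intro k
    refine ⟨fun a => one_mem _, fun m => ?_⟩
    simpa using ih (k + 1)

/-- powers of an element of `L_i` with a polynomial exponent of degree at most `i + 1` -/
theorem pow : S_POW := by
  intro G _ d i x hx q hq r
  have key : ∀ r n k : ℕ, ∀ q : Ix d → ℤ, DG n q → x ∈ L G (k + n - 1) →
      PN r k (fun a => x ^ q a) := by
    intro r
    induction r with
    | zero =>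
      intro n k q _ hx a
      exact zpow_mem (L_anti (by omega) hx) _
    | succ r ih =>
      intro n k q hq hx
      refine ⟨fun a => zpow_mem (L_anti (by omega) hx) _, fun m => ?_⟩
      cases n with
      | zero =>
        have h0 : (fun a => x ^ q (a + m) * (x ^ q a)⁻¹) = fun _ : Ix d => (1 : G) := by
          funext a
          rw [hq a m, mul_inv_cancel]
        change PN r (k + 1) (fun a => x ^ q (a + m) * (x ^ q a)⁻¹)
        rw [h0]
        exact pn_one r (k + 1)
      | succ n =>
        have h1 := ih n (k + 1) (fun a => q (a + m) - q a) (hq m) (by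
          have : k + 1 + n - 1 = k + (n + 1) - 1 := by omega
          rw [this]
          exact hx)
        simpa only [zpow_sub] using h1
  exact key r (i + 1) 0 q hq (by simpa using hx)

/-- a polynomial map with values in `L_i` has degree at most `i + 1` modulo `L_{i+1}` -/
theorem br : S_BR := by
  intro G _ d i h hh hi
  have key : ∀ r k : ℕ, r + 1 + k = i + 2 → ∀ h : Ix d → G, PN (r + 1) k h →
      (∀ a, h a ∈ L G i) → DG r (fun a => grm i (h a)) := by
    intro r
    induction r with
    | zero =>
      intro k hk h hh hi a m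
      have h1 : h (a + m) * (h a)⁻¹ ∈ L G (k + 1 - 1) := hh.2 m a
      have h2 : k + 1 - 1 = i + 1 := by omega
      rw [h2] at h1
      exact (grm_eq_iff (hi (a + m)) (hi a)).2 h1
    | succ r ih =>
      intro k hk h hh hi m
      have h1 := ih (k + 1) (by omega) (fun a => h (a + m) * (h a)⁻¹) (hh.2 m)
        (fun a => mul_mem (hi _) (inv_mem (hi a)))
      have h2 : (fun a => grm i (h (a + m) * (h a)⁻¹)) =
          fun a => grm i (h (a + m)) - grm i (h a) := by
        funext a
        rw [grm_mul (hi _) (inv_mem (hi a)), grm_inv (hi a), sub_eq_add_neg]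
      rw [h2] at h1
      exact h1
  exact key (i + 1) 0 (by omega) h (hh (i + 2)) hi

theorem dg_sub {d : ℕ} {B : Type} [AddCommGroup B] (S : AddSubgroup B) :
    ∀ (n : ℕ) (q : Ix d → S), DG n (fun a => (q a : B)) → DG n q := by
  intro n
  induction n with
  | zero =>
    intro q hq a m
    exact Subtype.ext (hq a m)
  | succ n ih =>
    intro q hq m
    exact ih (fun a => q (a + m) - q a) (hq m)

/-- extraction of the linear coefficient -/
theorem exx (hL : S_LC) (hB : S_BR) : S_EX := by
  intro d i
  obtain ⟨W, c, N, hN, hc, H⟩ := hL d (i + 1)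
  refine ⟨W, c, N, hN, hc, ?_⟩
  intro G _ V hV h hh hhV
  let S : AddSubgroup (Gr G i) :=
    { carrier := {b | ∃ x ∈ V, grm i x = b}
      zero_mem' := ⟨1, one_mem _, grm_one i⟩
      add_mem' := by
        rintro _ _ ⟨x, hx, rfl⟩ ⟨y, hy, rfl⟩
        exact ⟨x * y, mul_mem hx hy, grm_mul (hV hx) (hV hy)⟩
      neg_mem' := by
        rintro _ ⟨x, hx, rfl⟩
        exact ⟨x⁻¹, inv_mem hx, grm_inv (hV hx)⟩ }
  let q : Ix d → S := fun a => ⟨grm i (h a), ⟨h a, hhV a, rfl⟩⟩
  have hq : DG (i + 1) q :=
    dg_sub S (i + 1) q (hB G d i h hh (fun a => hV (hhV a)))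
  obtain ⟨b, hb⟩ := H S q hq
  obtain ⟨u, hu, hub⟩ := b.2
  refine ⟨u, hu, fun a => ?_⟩
  have h1 : ∑ t ∈ Finset.range W, c t • grm i (h (dl (t : ℤ) a)) = (a 0) • grm i u := by
    have h2 := congrArg (fun s : S => (s : Gr G i)) (hb a)
    simp only [AddSubgroup.coe_zsmul] at h2
    rw [hub, ← h2]
    rw [AddSubgroup.val_finset_sum]
    rfl
  have h3 : ∀ n : ℕ, ((List.range n).map fun t : ℕ => h (dl (t : ℤ) a) ^ c t).prod ∈ L G i ∧
      grm i ((List.range n).map fun t : ℕ => h (dl (t : ℤ) a) ^ c t).prod =
        ∑ t ∈ Finset.range n, c t • grm i (h (dl (t : ℤ) a)) := by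
    intro n
    induction n with
    | zero =>
      refine ⟨?_, ?_⟩
      · simp only [List.range_zero, List.map_nil, List.prod_nil]
        exact one_mem _
      · simp only [List.range_zero, List.map_nil, List.prod_nil, Finset.range_zero,
          Finset.sum_empty]
        exact grm_one i
    | succ n ih =>
      have hm : h (dl (n : ℤ) a) ∈ L G i := hV (hhV _)
      rw [List.range_succ, List.map_append, List.prod_append, Finset.sum_range_succ]
      simp only [List.map_cons, List.map_nil, List.prod_cons, List.prod_nil, mul_one]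
      refine ⟨mul_mem ih.1 (zpow_mem hm _), ?_⟩
      rw [grm_mul ih.1 (zpow_mem hm _), ih.2, grm_zpow hm]
  refine (grm_eq_iff (h3 W).1 (zpow_mem (hV hu) _)).1 ?_
  rw [(h3 W).2, h1, grm_zpow (hV hu)]

end Pool.Agent.Q247.NP
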