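import Pool.Agent.Q185.NP.Stm

/-!
# Job LC of project NP (row MP_35c333_an)

Proof of the statement `S_LC` (from `S_TY`) of `Pool.Agent.Q185.NP.Stm`: extraction of the linear
coefficient of a map of bounded degree by a combination of dilates.
-/

set_option autoImplicit false
set_option linter.unusedSectionVars false

namespace Pool.Agent.Q247.NP

open Pool.Agent.Q185.NP Q70.Nil Polynomial

/-- integer weights extracting the linear coefficient -/
theorem weights (W : ℕ) (hW : 2 ≤ W) : ∃ (c : ℕ → ℤ) (N : ℕ), 0 < N ∧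
    ∀ P : ℤ[X], P.natDegree < W →
      ∑ t ∈ Finset.range W, c t * P.eval (t : ℤ) = N * P.coeff 1 := by
  classical
  let v : ℕ → ℚ := fun t => (t : ℚ)
  let lam : ℕ → ℚ := fun t => (Lagrange.basis (Finset.range W) v t).coeff 1
  let N : ℕ := ∏ t ∈ Finset.range W, (lam t).den
  have hN : 0 < N := Finset.prod_pos fun t _ => (lam t).den_pos
  have h1 : ∀ t, ∃ z : ℤ, t ∈ Finset.range W → (z : ℚ) = N * lam t := by
    intro t
    by_cases ht : t ∈ Finset.range W
    · obtain ⟨k, hk⟩ := Finset.dvd_prod_of_mem (fun t => (lam t).den) ht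
      refine ⟨k * (lam t).num, fun _ => ?_⟩
      have hk' : (N : ℚ) = (lam t).den * k := by
        have : N = (lam t).den * k := hk
        rw [this]
        push_cast
        ring
      have h2 : ((lam t).den : ℚ) * lam t = (lam t).num := by
        rw [mul_comm]
        exact Rat.mul_den_eq_num (lam t)
      rw [hk', mul_assoc, mul_comm (k : ℚ), ← mul_assoc, h2]
      push_cast
      ring
    · exact ⟨0, fun h => absurd h ht⟩
  choose c hc using h1
  refine ⟨c, N, hN, ?_⟩
  intro P hP
  let Q : ℚ[X] := P.map (Int.castRingHom ℚ)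
  have hQd : Q.degree < (Finset.range W).card := by
    rw [Finset.card_range]
    refine lt_of_le_of_lt (degree_map_le) ?_
    refine lt_of_le_of_lt degree_le_natDegree ?_
    exact_mod_cast hP
  have hinj : Set.InjOn v (Finset.range W : Set ℕ) := fun x _ y _ h => Nat.cast_injective h
  have h3 := Lagrange.eq_interpolate hinj hQd
  have h4 : Q.coeff 1 = ∑ t ∈ Finset.range W, Q.eval (v t) * lam t := by
    conv_lhs => rw [h3]
    rw [Lagrange.interpolate_apply, finset_sum_coeff]
    refine Finset.sum_congr rfl fun t _ => ?_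
    rw [coeff_C_mul]
  have h5 : Q.coeff 1 = (P.coeff 1 : ℚ) := by
    simp [Q]
  have h6 : ∀ t : ℕ, Q.eval (v t) = ((P.eval (t : ℤ) : ℤ) : ℚ) := by
    intro t
    have : v t = (Int.castRingHom ℚ) (t : ℤ) := by simp [v]
    rw [this, eval_map, eval₂_at_apply]
    rfl
  have h7 : ((∑ t ∈ Finset.range W, c t * P.eval (t : ℤ) : ℤ) : ℚ) =
      ((N * P.coeff 1 : ℤ) : ℚ) := by
    push_cast
    rw [← h5, h4, Finset.mul_sum]
    refine Finset.sum_congr rfl fun t ht => ?_
    rw [hc t ht, h6]
    ring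
  exact_mod_cast h7

/-- the polynomial of `t ↦ (∏ α_e!) · bi (dl t a) α` -/
noncomputable def PP {d : ℕ} (a : Ix d) (α : Fin (d + 1) → ℕ) : ℤ[X] :=
  ∏ e, (descPochhammer ℤ (α e)).comp (C (a e) * X ^ (e.val + 1))

theorem eval_descPochhammer_int (x : ℤ) (k : ℕ) :
    (descPochhammer ℤ k).eval x = (k.factorial : ℤ) * Ring.choose x k := by
  rw [eval_eq_smeval, Ring.descPochhammer_eq_factorial_smul_choose, nsmul_eq_mul]

theorem PP_eval {d : ℕ} (a : Ix d) (α : Fin (d + 1) → ℕ) (t : ℤ) :
    (PP a α).eval t = (∏ e, ((α e).factorial : ℤ)) * bi (dl t a) α := by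
  rw [PP, eval_prod, bi, ← Finset.prod_mul_distrib]
  refine Finset.prod_congr rfl fun e _ => ?_
  rw [eval_comp, eval_descPochhammer_int]
  simp only [eval_mul, eval_C, eval_pow, eval_X, dl]
  rw [mul_comm (a e)]

theorem PP_natDegree {d : ℕ} (a : Ix d) (α : Fin (d + 1) → ℕ) {n : ℕ} (hα : ∑ e, α e ≤ n) :
    (PP a α).natDegree ≤ n * (d + 1) := by
  refine (natDegree_prod_le _ _).trans ?_
  calc ∑ e, ((descPochhammer ℤ (α e)).comp (C (a e) * X ^ (e.val + 1))).natDegree
      ≤ ∑ e, α e * (d + 1) := by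
        refine Finset.sum_le_sum fun e _ => ?_
        refine natDegree_comp_le.trans ?_
        rw [descPochhammer_natDegree]
        refine Nat.mul_le_mul_left _ ((natDegree_C_mul_X_pow_le _ _).trans ?_)
        have := e.isLt
        omega
    _ = (∑ e, α e) * (d + 1) := by rw [Finset.sum_mul]
    _ ≤ n * (d + 1) := Nat.mul_le_mul_right _ hα

theorem PP_coeff {d : ℕ} (α : Fin (d + 1) → ℕ) : ∃ K : ℤ, ∀ a : Ix d,
    (PP a α).coeff 1 = K * a 0 := by
  classical
  refine ⟨(∏ j ∈ Finset.univ.erase (0 : Fin (d + 1)), (descPochhammer ℤ (α j)).eval 0) *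
    (derivative (descPochhammer ℤ (α 0))).eval 0, fun a => ?_⟩
  have h1 : (PP a α).coeff 1 = (derivative (PP a α)).eval 0 := by
    rw [← coeff_zero_eq_eval_zero, coeff_derivative]
    simp
  rw [h1, PP, derivative_prod_finset, eval_finsetSum, Finset.sum_eq_single (0 : Fin (d + 1))]
  · rw [eval_mul, eval_prod, derivative_comp]
    have h2 : ∀ j : Fin (d + 1), eval 0 ((descPochhammer ℤ (α j)).comp
        (C (a j) * X ^ (j.val + 1))) = (descPochhammer ℤ (α j)).eval 0 := by
      intro j
      rw [eval_comp]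
      simp
    simp only [h2]
    rw [eval_mul, eval_comp]
    simp
    ring
  · intro e _ he
    rw [derivative_comp]
    have h3 : e.val ≠ 0 := fun h => he (Fin.ext h)
    have h4 : eval 0 (derivative (C (a e) * X ^ (e.val + 1)) : ℤ[X]) = 0 := by
      simp [h3]
    rw [eval_mul, eval_mul, h4]
    ring
  · intro h
    exact absurd (Finset.mem_univ _) h

/-- extraction of the linear coefficient -/
theorem lc (hT : S_TY) : S_LC := by
  intro d n
  obtain ⟨c, N, hN, hc⟩ := weights (n * (d + 1) + 2) (by omega)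
  refine ⟨n * (d + 1) + 2, c, N, hN, ?_, ?_⟩
  · have h := hc X (by rw [natDegree_X]; omega)
    simpa using h
  intro B _ q hq
  obtain ⟨b, hb⟩ := (hT d n).2 B q hq
  have key : ∀ α ∈ ex d n, ∃ κ : ℤ, ∀ a : Ix d,
      ∑ t ∈ Finset.range (n * (d + 1) + 2), c t * bi (dl (t : ℤ) a) α = κ * a 0 := by
    intro α hα
    have hα' : ∑ e, α e ≤ n := (Finset.mem_filter.1 hα).2
    obtain ⟨K, hK⟩ := PP_coeff (d := d) α
    have h1 : ∀ a : Ix d, (∏ e, ((α e).factorial : ℤ)) *
        ∑ t ∈ Finset.range (n * (d + 1) + 2), c t * bi (dl (t : ℤ) a) α = N * (K * a 0) := by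
      intro a
      have h2 := hc (PP a α) (by
        have := PP_natDegree a α hα'
        omega)
      rw [hK a] at h2
      rw [← h2, Finset.mul_sum]
      refine Finset.sum_congr rfl fun t _ => ?_
      rw [PP_eval]
      ring
    have hF : (∏ e, ((α e).factorial : ℤ)) ≠ 0 :=
      Finset.prod_ne_zero_iff.2 fun e _ => by exact_mod_cast (α e).factorial_ne_zero
    refine ⟨∑ t ∈ Finset.range (n * (d + 1) + 2),
      c t * bi (dl (t : ℤ) (fun _ => 1 : Ix d)) α, fun a => ?_⟩
    apply mul_left_cancel₀ hF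
    rw [h1 a, ← mul_assoc (∏ e, ((α e).factorial : ℤ)), h1 (fun _ => 1)]
    ring
  choose! κ hκ using key
  refine ⟨∑ α ∈ ex d n, κ α • b α, fun a => ?_⟩
  have h1 : ∑ t ∈ Finset.range (n * (d + 1) + 2), c t • q (dl (t : ℤ) a) =
      ∑ α ∈ ex d n, (∑ t ∈ Finset.range (n * (d + 1) + 2), c t * bi (dl (t : ℤ) a) α) • b α := by
    simp only [hb, Finset.smul_sum, Finset.sum_smul]
    rw [Finset.sum_comm]
    refine Finset.sum_congr rfl fun α _ => Finset.sum_congr rfl fun t _ => ?_
    rw [mul_smul]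
  rw [h1, Finset.smul_sum]
  refine Finset.sum_congr rfl fun α hα => ?_
  rw [hκ α hα a, mul_comm, mul_smul]

end Pool.Agent.Q247.NP
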