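import Pool.Agent.Q185.NP.Stm

/-!
# Job TY of project NP (row MP_35c333_an)

Proof of the statement `S_TY` of `Pool.Agent.Q185.NP.Stm`: products of binomial coefficients have the
expected degree, and every map of degree at most `n` is a combination of them.
-/

set_option autoImplicit false
set_option linter.unusedSectionVars false

namespace Pool.Agent.Q247.NP

open Pool.Agent.Q185.NP Q70.Nil

/-- degree at most `n` on a general abelian group -/
def dg {A B : Type} [AddCommGroup A] [AddCommGroup B] : ℕ → (A → B) → Prop
  | 0, q => ∀ a m, q (a + m) = q a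
  | n + 1, q => ∀ m, dg n (fun a => q (a + m) - q a)

theorem dg_iff {d : ℕ} {B : Type} [AddCommGroup B] : ∀ (n : ℕ) (q : Ix d → B),
    DG n q ↔ dg n q := by
  intro n
  induction n with
  | zero => intro q; exact Iff.rfl
  | succ n ih =>
    intro q
    constructor
    · intro h m
      exact (ih _).1 (h m)
    · intro h m
      exact (ih _).2 (h m)

section general

variable {A B : Type} [AddCommGroup A] [AddCommGroup B]

theorem dg_zero_fun : ∀ n : ℕ, dg n (fun _ : A => (0 : B)) := by
  intro n
  induction n with
  | zero => intro a m; rfl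
  | succ n ih => intro m; simpa using ih

theorem dg_add : ∀ (n : ℕ) (f g : A → B), dg n f → dg n g → dg n (fun a => f a + g a) := by
  intro n
  induction n with
  | zero =>
    intro f g hf hg a m
    change f (a + m) + g (a + m) = f a + g a
    rw [hf a m, hg a m]
  | succ n ih =>
    intro f g hf hg m
    have h := ih _ _ (hf m) (hg m)
    have e : (fun a => f (a + m) - f a + (g (a + m) - g a)) =
        fun a => f (a + m) + g (a + m) - (f a + g a) := by
      funext a
      abel
    rw [e] at h
    exact h

theorem dg_succ : ∀ (n : ℕ) (f : A → B), dg n f → dg (n + 1) f := by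
  intro n
  induction n with
  | zero =>
    intro f hf m a m'
    change f (a + m' + m) - f (a + m') = f (a + m) - f a
    rw [hf (a + m') m, hf a m', hf a m]
  | succ n ih =>
    intro f hf m
    exact ih _ (hf m)

theorem dg_mono {m n : ℕ} (h : m ≤ n) (f : A → B) (hf : dg m f) : dg n f := by
  induction h with
  | refl => exact hf
  | step _ ih => exact dg_succ _ _ ih

theorem dg_zsmul : ∀ (n : ℕ) (f : A → B) (c : ℤ), dg n f → dg n (fun a => c • f a) := by
  intro n
  induction n with
  | zero =>
    intro f c hf a m
    change c • f (a + m) = c • f a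
    rw [hf a m]
  | succ n ih =>
    intro f c hf m
    have h := ih _ c (hf m)
    have e : (fun a => c • (f (a + m) - f a)) = fun a => c • f (a + m) - c • f a := by
      funext a
      rw [smul_sub]
    rw [e] at h
    exact h

theorem dg_sum {ι : Type} (s : Finset ι) (n : ℕ) (f : ι → A → B) (hf : ∀ i ∈ s, dg n (f i)) :
    dg n (fun a => ∑ i ∈ s, f i a) := by
  classical
  induction s using Finset.induction_on with
  | empty => simpa using dg_zero_fun n
  | insert i s hi ih =>
    have h1 := dg_add n _ _ (hf i (Finset.mem_insert_self i s))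
      (ih fun j hj => hf j (Finset.mem_insert_of_mem hj))
    have e : (fun a => ∑ j ∈ insert i s, f j a) = fun a => f i a + ∑ j ∈ s, f j a := by
      funext a
      rw [Finset.sum_insert hi]
    rw [e]
    exact h1

theorem dg_comp {A' : Type} [AddCommGroup A'] : ∀ (n : ℕ) (q : A → B) (f : A' → A),
    (∀ m, ∃ m', ∀ a, f (a + m) = f a + m') → dg n q → dg n (fun a => q (f a)) := by
  intro n
  induction n with
  | zero =>
    intro q f hf hq a m
    obtain ⟨m', hm'⟩ := hf m
    change q (f (a + m)) = q (f a)
    rw [hm' a, hq (f a) m']
  | succ n ih =>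
    intro q f hf hq m
    obtain ⟨m', hm'⟩ := hf m
    have h := ih _ f hf (hq m')
    have e : (fun a => q (f (a + m)) - q (f a)) = fun a => q (f a + m') - q (f a) := by
      funext a
      rw [hm' a]
    change dg n (fun a => q (f (a + m)) - q (f a))
    rw [e]
    exact h

theorem dg_mul : ∀ (N m n : ℕ), m + n = N → ∀ f g : A → ℤ, dg m f → dg n g →
    dg N (fun a => f a * g a) := by
  intro N
  induction N using Nat.strong_induction_on with
  | _ N ih =>
    intro m n hN f g hf hg
    cases N with
    | zero =>
      obtain rfl : m = 0 := by omega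
      obtain rfl : n = 0 := by omega
      intro a l
      change f (a + l) * g (a + l) = f a * g a
      rw [hf a l, hg a l]
    | succ N =>
      intro l
      cases m with
      | zero =>
        cases n with
        | zero => omega
        | succ n =>
          have h1 := ih N (by omega) 0 n (by omega) f _ hf (hg l)
          have e : (fun a => f (a + l) * g (a + l) - f a * g a) =
              fun a => f a * (g (a + l) - g a) := by
            funext a
            rw [hf a l]
            ring
          rw [← e] at h1
          exact h1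
      | succ m =>
        cases n with
        | zero =>
          have h1 := ih N (by omega) m 0 (by omega) _ g (hf l) hg
          have e : (fun a => f (a + l) * g (a + l) - f a * g a) =
              fun a => (f (a + l) - f a) * g a := by
            funext a
            rw [hg a l]
            ring
          rw [← e] at h1
          exact h1
        | succ n =>
          have h1 := ih N (by omega) (m + 1) n (by omega) f _ hf (hg l)
          have h2 := dg_mono (show m + n ≤ N by omega) _
            (ih (m + n) (by omega) m n rfl _ _ (hf l) (hg l))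
          have h3 := ih N (by omega) m (n + 1) (by omega) _ g (hf l) hg
          have h4 := dg_add N _ _ (dg_add N _ _ h1 h2) h3
          have e : (fun a => f (a + l) * g (a + l) - f a * g a) =
              fun a => f a * (g (a + l) - g a) + (f (a + l) - f a) * (g (a + l) - g a) +
                (f (a + l) - f a) * g a := by
            funext a
            ring
          rw [← e] at h4
          exact h4

end general

theorem dg_choose {r : ℕ} (e : Fin r) : ∀ k : ℕ,
    dg k (fun a : Fin r → ℤ => Ring.choose (a e) k) := by
  intro k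
  induction k using Nat.strong_induction_on with
  | _ k ih =>
    cases k with
    | zero =>
      intro a m
      simp only [Ring.choose_zero_right]
    | succ k =>
      intro m
      have e1 : (fun a : Fin r → ℤ => Ring.choose ((a + m) e) (k + 1) -
          Ring.choose (a e) (k + 1)) =
          fun a => ∑ j ∈ Finset.range (k + 1),
            (Ring.choose (m e) (k + 1 - j)) • Ring.choose (a e) j := by
        funext a
        rw [Pi.add_apply, Ring.add_choose_eq (k + 1) (Commute.all _ _),
          Finset.Nat.sum_antidiagonal_eq_sum_range_succ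
            (fun i j => Ring.choose (a e) i * Ring.choose (m e) j), Finset.sum_range_succ,
          Nat.sub_self, Ring.choose_zero_right, mul_one, add_sub_cancel_right]
        refine Finset.sum_congr rfl fun j _ => ?_
        rw [smul_eq_mul, mul_comm]
      rw [e1]
      refine dg_sum _ _ _ fun j hj => ?_
      rw [Finset.mem_range] at hj
      exact dg_zsmul _ _ _ (dg_mono (show j ≤ k by omega) _ (ih j (by omega)))

theorem dg_prod {r : ℕ} (α : Fin r → ℕ) (s : Finset (Fin r)) :
    dg (∑ e ∈ s, α e) (fun a : Fin r → ℤ => ∏ e ∈ s, Ring.choose (a e) (α e)) := by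
  classical
  induction s using Finset.induction_on with
  | empty =>
    intro a m
    simp
  | insert i s hi ih =>
    rw [Finset.sum_insert hi]
    have h1 := dg_mul _ _ _ rfl _ _ (dg_choose i (α i)) ih
    have e : (fun a : Fin r → ℤ => ∏ j ∈ insert i s, Ring.choose (a j) (α j)) =
        fun a => Ring.choose (a i) (α i) * ∏ j ∈ s, Ring.choose (a j) (α j) := by
      funext a
      rw [Finset.prod_insert hi]
    rw [e]
    exact h1

/-! ## Newton's formula -/

/-- the difference operator on the integers -/
def dz {B : Type} [AddCommGroup B] (f : ℤ → B) : ℤ → B := fun x => f (x + 1) - f x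

theorem newton {B : Type} [AddCommGroup B] : ∀ (n : ℕ) (f : ℤ → B), dg n f →
    ∀ x, f x = ∑ j ∈ Finset.range (n + 1), Ring.choose x j • (dz^[j] f) 0 := by
  intro n
  induction n with
  | zero =>
    intro f hf x
    have h := hf 0 x
    simp only [zero_add] at h
    simp [h]
  | succ n ih =>
    intro f hf x
    have h1 := ih (dz f) (hf 1)
    let g : ℤ → B := fun x => f x - ∑ j ∈ Finset.range (n + 1 + 1), Ring.choose x j • (dz^[j] f) 0
    have h2 : ∀ x, g (x + 1) = g x := by
      intro x
      have h3 : ∑ j ∈ Finset.range (n + 1 + 1), Ring.choose (x + 1) j • (dz^[j] f) 0 =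
          ∑ j ∈ Finset.range (n + 1 + 1), Ring.choose x j • (dz^[j] f) 0 +
          ∑ j ∈ Finset.range (n + 1), Ring.choose x j • (dz^[j] (dz f)) 0 := by
        rw [Finset.sum_range_succ' (fun j => Ring.choose (x + 1) j • (dz^[j] f) 0),
          Finset.sum_range_succ' (fun j => Ring.choose x j • (dz^[j] f) 0)]
        simp only [Ring.choose_zero_right, Ring.choose_succ_succ, add_smul,
          Finset.sum_add_distrib, Function.iterate_succ, Function.comp_apply]
        abel
      change f (x + 1) - _ = f x - _
      rw [h3, ← h1 x]
      change f (x + 1) - (_ + (f (x + 1) - f x)) = _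
      abel
    have h4 : ∀ x : ℤ, g x = g 0 := by
      intro x
      induction x using Int.induction_on with
      | zero => rfl
      | succ i hi => rw [h2, hi]
      | pred i hi =>
        rw [← hi, ← h2 (-(i : ℤ) - 1)]
        congr 1
        ring
    have h5 : g 0 = 0 := by
      change f 0 - _ = 0
      rw [Finset.sum_range_succ']
      simp only [Ring.choose_zero_right, Function.iterate_zero, id_eq, one_smul]
      rw [Finset.sum_eq_zero, zero_add, sub_self]
      intro j _
      rw [Ring.choose_zero_succ, zero_smul]
    have h6 : g x = 0 := by rw [h4, h5]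
    exact sub_eq_zero.1 h6

/-- exponents -/
def E (r n : ℕ) : Finset (Fin r → ℕ) :=
  (Fintype.piFinset fun _ => Finset.range (n + 1)).filter fun α => ∑ e, α e ≤ n

theorem mem_E {r n : ℕ} {α : Fin r → ℕ} : α ∈ E r n ↔ ∑ e, α e ≤ n := by
  rw [E, Finset.mem_filter, Fintype.mem_piFinset]
  constructor
  · exact fun h => h.2
  · intro h
    refine ⟨fun e => ?_, h⟩
    rw [Finset.mem_range]
    have := Finset.single_le_sum (fun i _ => Nat.zero_le (α i)) (Finset.mem_univ e)
    omega

/-- combinations of products of binomials -/
def Sp {B : Type} [AddCommGroup B] (r n : ℕ) (q : (Fin r → ℤ) → B) : Prop :=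
  ∃ b : (Fin r → ℕ) → B, ∀ a, q a = ∑ α ∈ E r n, (∏ e, Ring.choose (a e) (α e)) • b α

section sp

variable {B : Type} [AddCommGroup B]

theorem Sp_zero (r n : ℕ) : Sp r n (fun _ : Fin r → ℤ => (0 : B)) :=
  ⟨fun _ => 0, fun a => by simp⟩

theorem Sp_add {r n : ℕ} {f g : (Fin r → ℤ) → B} (hf : Sp r n f) (hg : Sp r n g) :
    Sp r n (fun a => f a + g a) := by
  obtain ⟨b, hb⟩ := hf
  obtain ⟨c, hc⟩ := hg
  refine ⟨fun α => b α + c α, fun a => ?_⟩
  simp only [hb, hc, smul_add, Finset.sum_add_distrib]

theorem Sp_sum {ι : Type} (s : Finset ι) {r n : ℕ} (f : ι → (Fin r → ℤ) → B)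
    (hf : ∀ i ∈ s, Sp r n (f i)) : Sp r n (fun a => ∑ i ∈ s, f i a) := by
  classical
  induction s using Finset.induction_on with
  | empty => simpa using Sp_zero r n
  | insert i s hi ih =>
    have h1 := Sp_add (hf i (Finset.mem_insert_self i s))
      (ih fun j hj => hf j (Finset.mem_insert_of_mem hj))
    have e : (fun a => ∑ j ∈ insert i s, f j a) = fun a => f i a + ∑ j ∈ s, f j a := by
      funext a
      rw [Finset.sum_insert hi]
    rw [e]
    exact h1

theorem Sp_single {r n : ℕ} (α : Fin r → ℕ) (hα : ∑ e, α e ≤ n) (b : B) :
    Sp r n (fun a => (∏ e, Ring.choose (a e) (α e)) • b) := by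
  classical
  refine ⟨fun β => if β = α then b else 0, fun a => ?_⟩
  simp only [smul_ite, smul_zero]
  rw [Finset.sum_ite_eq' (E r n) α (fun β => (∏ e, Ring.choose (a e) (β e)) • b),
    if_pos (mem_E.2 hα)]

/-- difference in the direction of the first coordinate -/
def dc {r : ℕ} (q : (Fin (r + 1) → ℤ) → B) : (Fin (r + 1) → ℤ) → B :=
  fun a => q (a + Fin.cons 1 0) - q a

theorem dc_iter {r : ℕ} (a' : Fin r → ℤ) : ∀ (j : ℕ) (q : (Fin (r + 1) → ℤ) → B),
    dz^[j] (fun x => q (Fin.cons x a')) = fun x => (dc^[j] q) (Fin.cons x a') := by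
  intro j
  induction j with
  | zero => intro q; rfl
  | succ j ih =>
    intro q
    rw [Function.iterate_succ, Function.comp_apply, Function.iterate_succ, Function.comp_apply,
      ← ih (dc q)]
    congr 1
    funext x
    change q (Fin.cons (x + 1) a') - q (Fin.cons x a') =
      q (Fin.cons x a' + Fin.cons 1 0) - q (Fin.cons x a')
    congr 2
    funext i
    refine Fin.cases ?_ (fun i => ?_) i
    · simp
    · simp

theorem dg_dc {r : ℕ} : ∀ (j n : ℕ) (q : (Fin (r + 1) → ℤ) → B), dg (n + j) q →
    dg n (dc^[j] q) := by
  intro j
  induction j with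
  | zero => intro n q hq; exact hq
  | succ j ih =>
    intro n q hq
    rw [Function.iterate_succ, Function.comp_apply]
    exact ih n (dc q) (hq _)

theorem taylor : ∀ (r n : ℕ) (q : (Fin r → ℤ) → B), dg n q → Sp r n q := by
  intro r
  induction r with
  | zero =>
    intro n q _
    have h := Sp_single (B := B) (r := 0) (n := n) (fun _ => 0) (by simp) (q 0)
    have e : q = fun a => (∏ e : Fin 0, Ring.choose (a e) 0) • q 0 := by
      funext a
      rw [Subsingleton.elim a 0]
      simp
    rw [e]
    exact h
  | succ r ih =>
    intro n q hq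
    have h1 : ∀ a : Fin (r + 1) → ℤ, q a = ∑ j ∈ Finset.range (n + 1),
        Ring.choose (a 0) j • (dc^[j] q) (Fin.cons 0 (Fin.tail a)) := by
      intro a
      have h2 := newton n (fun x => q (Fin.cons x (Fin.tail a)))
        (dg_comp n q _ (fun m => ⟨Fin.cons m 0, fun x => by
          funext i
          refine Fin.cases ?_ (fun i => ?_) i
          · simp
          · simp⟩) hq) (a 0)
      simp only [dc_iter, Fin.cons_self_tail] at h2
      exact h2
    have e : q = fun a => ∑ j ∈ Finset.range (n + 1),
        Ring.choose (a 0) j • (dc^[j] q) (Fin.cons 0 (Fin.tail a)) := funext h1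
    rw [e]
    refine Sp_sum _ _ fun j hj => ?_
    rw [Finset.mem_range] at hj
    have h3 : dg (n - j) (fun a' : Fin r → ℤ => (dc^[j] q) (Fin.cons 0 a')) := by
      refine dg_comp (n - j) (dc^[j] q) _ (fun m => ⟨Fin.cons 0 m, fun a' => ?_⟩) ?_
      · funext i
        refine Fin.cases ?_ (fun i => ?_) i
        · simp
        · simp
      · refine dg_dc j (n - j) q ?_
        have : n - j + j = n := by omega
        rw [this]
        exact hq
    obtain ⟨b, hb⟩ := ih (n - j) _ h3
    have e2 : (fun a : Fin (r + 1) → ℤ => Ring.choose (a 0) j •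
        (dc^[j] q) (Fin.cons 0 (Fin.tail a))) = fun a => ∑ β ∈ E r (n - j),
          (∏ e, Ring.choose (a e) ((Fin.cons j β : Fin (r + 1) → ℕ) e)) • b β := by
      funext a
      have hb' : (dc^[j] q) (Fin.cons 0 (Fin.tail a)) = _ := hb (Fin.tail a)
      rw [hb', Finset.smul_sum]
      refine Finset.sum_congr rfl fun β _ => ?_
      rw [Fin.prod_univ_succ, Fin.cons_zero, mul_smul]
      simp only [Fin.cons_succ]
      rfl
    rw [e2]
    refine Sp_sum _ _ fun β hβ => ?_
    refine Sp_single _ ?_ _
    rw [mem_E] at hβ
    rw [Fin.sum_univ_succ, Fin.cons_zero]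
    simp only [Fin.cons_succ]
    omega

end sp

/-- Taylor expansion of maps of bounded degree -/
theorem ty : S_TY := by
  intro d n
  have hE : ex d n = E (d + 1) n := rfl
  refine ⟨fun α hα => ?_, fun B _ q hq => ?_⟩
  · rw [hE, mem_E] at hα
    rw [dg_iff]
    exact dg_mono hα _ (dg_prod α Finset.univ)
  · obtain ⟨b, hb⟩ := taylor (d + 1) n q ((dg_iff n q).1 hq)
    refine ⟨b, fun a => ?_⟩
    rw [hb a, hE]
    rfl

end Pool.Agent.Q247.NP
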